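import Pool.Agent.Helper70.LR11

open Filter Topology Asymptotics Polynomial

noncomputable section

namespace Pool.Agent.Results.MP_5c4bc0_an.LargestRoot

/-- The antiderivative of `p` that vanishes at `0`, that is `∫_0^X p(t) dt`. -/
def antideriv (p : ℚ[X]) : ℚ[X] := p.sum fun i a => C (a / (i + 1)) * X ^ (i + 1)

/-- The polynomials `L_n`: `L_0 = -X` and `L_{n+1}(X) = -L_n(X) + n ∫_0^X L_n(t) dt`. -/
def L : ℕ → ℚ[X]
  | 0 => -X
  | n + 1 => -(L n) + C (n : ℚ) * antideriv (L n)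

/-- The generating function `F(T, X) = ∑ L_n(X) T^n`, a power series in `T` over `ℚ[X]`. -/
def F : PowerSeries ℚ[X] := PowerSeries.mk L

/-- The polynomial `L_{n,k}(X)`: the coefficient of `T^n` in `F(T, X)^k`. -/
def Lnk (n k : ℕ) : ℚ[X] := PowerSeries.coeff n (F ^ k)

lemma L_eq (n : ℕ) : L n = Pool.Agent.Helper70.LR.L n := by
  induction n with
  | zero => rfl
  | succ n ih =>
    rw [L, Pool.Agent.Helper70.LR.L, ih]
    rfl

lemma Lnk_eq (n k : ℕ) : Lnk n k = Pool.Agent.Helper70.LR.Lnk n k := by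
  unfold Lnk Pool.Agent.Helper70.LR.Lnk F Pool.Agent.Helper70.LR.F
  rw [show L = Pool.Agent.Helper70.LR.L from funext L_eq]

/-- For all `k ≥ 1`, `n ≥ 1` all complex roots of `L_{n,k}` are real and nonnegative, and there are
real polynomials `C_m` of degree `m` such that for every fixed `k ≥ 1` the largest root of `L_{n,k}`
has the asymptotic expansion `n + log n + γ + k - 1 + ∑ C_m(k) / n^(m+1)`. -/
theorem result :
    (∀ k n : ℕ, 1 ≤ k → 1 ≤ n → ∀ z : ℂ, aeval z (Lnk n k) = 0 → ∃ r : ℝ, 0 ≤ r ∧ z = r) ∧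
    ∃ (ρ : ℕ → ℕ → ℝ) (C : ℕ → ℝ[X]),
      (∀ k n : ℕ, 1 ≤ k → 1 ≤ n → IsGreatest {x : ℝ | aeval x (Lnk n k) = 0} (ρ n k)) ∧
      (∀ m : ℕ, (C m).degree = m) ∧
      ∀ k : ℕ, 1 ≤ k → ∀ M : ℕ,
        (fun n : ℕ => ρ n k
            - ((n : ℝ) + Real.log n + Real.eulerMascheroniConstant + k - 1)
            - ∑ m ∈ Finset.range (M + 1), (C m).eval (k : ℝ) / (n : ℝ) ^ (m + 1))
          =O[atTop] (fun n : ℕ => 1 / (n : ℝ) ^ (M + 2)) := by
  have h := Pool.Agent.Helper70.LR.main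
  simp only [← Lnk_eq] at h
  exact h

end Pool.Agent.Results.MP_5c4bc0_an.LargestRoot
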